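import Pool.Agent.Lib.MP_aafae6_an.TG.Main

/-!
A weakly K-analytic space of continuous functions with an equivalent norm whose envelopes for all
norming subspaces are Gateaux differentiable, and which is not isomorphic to a subspace of a
weakly compactly generated space.
-/

namespace Pool.Agent.Results.MP_aafae6_an.TalagrandCompact

universe u

section defs

variable {X : Type*} [NormedAddCommGroup X] [NormedSpace ℝ X]

/-- `Y` is a norming subspace of the dual. -/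
def IsNorming (Y : Submodule ℝ (StrongDual ℝ X)) : Prop :=
  ∃ lam : ℝ, 0 < lam ∧ ∀ x : X, lam * ‖x‖ ≤ sSup {r : ℝ | ∃ f ∈ Y, ‖f‖ ≤ 1 ∧ |f x| = r}

/-- The `Y`-lower semicontinuous envelope of the norm. -/
noncomputable def envelope (Y : Submodule ℝ (StrongDual ℝ X)) (x : X) : ℝ :=
  sSup {r : ℝ | ∃ f ∈ Y, ‖f‖ ≤ 1 ∧ f x = r}

/-- Gateaux differentiability at a point. -/
def GateauxAt (F : X → ℝ) (x : X) : Prop :=
  ∃ g : StrongDual ℝ X, ∀ h : X, HasLineDerivAt ℝ F (g h) x h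

/-- Weakly compactly generated spaces. -/
def IsWCG (Z : Type*) [NormedAddCommGroup Z] [NormedSpace ℝ Z] : Prop :=
  ∃ K : Set Z, IsCompact (toWeakSpace ℝ Z '' K) ∧ (Submodule.span ℝ K).topologicalClosure = ⊤

/-- Weakly K-analytic spaces: in the weak topology the space is the image of the Baire space
under an upper semicontinuous map with nonempty compact values. -/
def IsWeaklyKAnalytic (Z : Type*) [NormedAddCommGroup Z] [NormedSpace ℝ Z] : Prop :=
  ∃ φ : (ℕ → ℕ) → Set (WeakSpace ℝ Z), UpperHemicontinuous φ ∧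
    (∀ α, (φ α).Nonempty ∧ IsCompact (φ α)) ∧ ⋃ α, φ α = Set.univ

end defs

open Pool.Agent.Lib.MP_aafae6_an.TG in
theorem result : ∃ (K : Type) (_ : TopologicalSpace K) (_ : CompactSpace K) (_ : T2Space K)
    (X : Type) (_ : NormedAddCommGroup X) (_ : NormedSpace ℝ X),
    Nonempty (X ≃L[ℝ] C(K, ℝ)) ∧ CompleteSpace X ∧ IsWeaklyKAnalytic X ∧
    (∀ Y : Submodule ℝ (StrongDual ℝ X), IsNorming Y → ∀ x : X, x ≠ 0 →
      GateauxAt (envelope Y) x) ∧
    ∀ (Z : Type u) [NormedAddCommGroup Z] [NormedSpace ℝ Z], IsWCG Z →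
      ∀ S : Submodule ℝ Z, IsEmpty (X ≃L[ℝ] S) := by
  refine ⟨TK, inferInstance, inferInstance, inferInstance, TN, inferInstance, inferInstance,
    ⟨idT.symm⟩, inferInstance, ?_, ?_, ?_⟩
  · obtain ⟨φ, h1, h2, h3⟩ := kan
    exact ⟨φ, upperHemicontinuous_iff_forall_isOpen.2 h2, h1, h3⟩
  · rintro Y ⟨lam, h1, h2⟩ x hx
    refine smooth Y x ((mul_pos h1 (norm_pos_iff.2 hx)).trans_le ((h2 x).trans ?_))
    have hb : BddAbove {r : ℝ | ∃ f ∈ Y, ‖f‖ ≤ 1 ∧ f x = r} := ⟨‖x‖, by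
      rintro _ ⟨f, -, hf, rfl⟩
      exact (le_abs_self _).trans ((f.le_of_opNorm_le hf x).trans (one_mul _).le)⟩
    refine csSup_le ⟨_, 0, Y.zero_mem, by simp, rfl⟩ ?_
    rintro _ ⟨f, hf, hf', rfl⟩
    exact abs_le.2 ⟨neg_le.1 (le_csSup hb ⟨-f, Y.neg_mem hf, by rwa [norm_neg], rfl⟩),
      le_csSup hb ⟨f, hf, hf', rfl⟩⟩
  · rintro Z _ _ ⟨K, h1, h2⟩ S
    exact ⟨not_equiv K h1 (Submodule.dense_iff_topologicalClosure_eq_top.2 h2) S⟩

end Pool.Agent.Results.MP_aafae6_an.TalagrandCompact
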